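import Pool.Agent.SZG.StmtsD

/-!
# Squad SZG, row DBW: trivial determinant bounds with weights
-/

set_option autoImplicit false

namespace Pool.Agent.SZG.H41

theorem dbw : DbwStmt := by
  intro K _ v ι _ _ M ω χ hω hχ hM
  have hterm : ∀ σ : Equiv.Perm ι,
      v (Equiv.Perm.sign σ • ∏ i, M (σ i) i) ≤ (∏ i, ω i) * ∏ j, χ j := by
    intro σ
    have h1 : v (Equiv.Perm.sign σ • ∏ i, M (σ i) i) = ∏ i, v (M (σ i) i) := by
      rcases Int.units_eq_one_or (Equiv.Perm.sign σ) with h | h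
      · rw [h, one_smul, map_prod]
      · rw [h, Units.neg_smul, one_smul, AbsoluteValue.map_neg, map_prod]
    rw [h1]
    calc ∏ i, v (M (σ i) i) ≤ ∏ i, (ω (σ i) * χ i) :=
          Finset.prod_le_prod (fun i _ => v.nonneg _) (fun i _ => hM _ _)
      _ = (∏ i, ω (σ i)) * ∏ j, χ j := Finset.prod_mul_distrib
      _ = (∏ i, ω i) * ∏ j, χ j := by rw [Equiv.prod_comp σ ω]
  have h0 : 0 ≤ (∏ i, ω i) * ∏ j, χ j :=
    mul_nonneg (Finset.prod_nonneg fun i _ => hω i) (Finset.prod_nonneg fun j _ => hχ j)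
  rw [Matrix.det_apply]
  refine ⟨?_, ?_⟩
  · calc v (∑ σ : Equiv.Perm ι, Equiv.Perm.sign σ • ∏ i, M (σ i) i)
        ≤ ∑ σ : Equiv.Perm ι, v (Equiv.Perm.sign σ • ∏ i, M (σ i) i) := v.sum_le _ _
      _ ≤ ∑ _σ : Equiv.Perm ι, ((∏ i, ω i) * ∏ j, χ j) :=
          Finset.sum_le_sum fun σ _ => hterm σ
      _ = (Fintype.card ι).factorial * ((∏ i, ω i) * ∏ j, χ j) := by
          rw [Finset.sum_const, Finset.card_univ, Fintype.card_perm, nsmul_eq_mul]
  · intro hna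
    obtain ⟨σ, -, hσ⟩ := IsNonarchimedean.finset_image_add_of_nonempty hna
      (fun σ : Equiv.Perm ι => Equiv.Perm.sign σ • ∏ i, M (σ i) i)
      (t := Finset.univ) ⟨1, Finset.mem_univ _⟩
    exact hσ.trans (hterm σ)

end Pool.Agent.SZG.H41
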