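import Pool.Agent.SZG.StmtsE
import Pool.Agent.SZG.StmtsW
import Pool.Agent.SZG.StmtsD

/-!
# Squad SZG, row DTV: minors at the other places
-/

set_option autoImplicit false

namespace Pool.Agent.SZG.H41

open Pool.Agent.THS

theorem dtv (mpb : MpbStmt) (dbw : DbwStmt) : DtvStmt := by
  intro K _ _ v g E L0 c e s T x W X l hQS hWX hL R r k
  have h2 : (2 : K) ≠ 0 := two_ne_zero
  have hmem : ∀ b : Bx g l, l • lft b ∈ L0 := by
    intro b
    have h1 : l • lft b = ((0, fun i => (l : ℤ) * ((b.1 i).val : ℤ),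
        fun i => (l : ℤ) * ((b.2 i).val : ℤ)) : Idx g) := by
      unfold lft
      refine Prod.ext ?_ (Prod.ext ?_ ?_)
      · simp
      · funext i
        simp
      · funext i
        simp
    rw [h1]
    exact hL _ _
  have hm := fun (i j : Fin R) => mpb K (Idx g) v g E L0 c e s T x W X l (Zz g) (lft (r i).2) hQS
    hWX h2 (hmem _) (k j) (r i).1
  have hnv : 0 ≤ nv v (T 0) := Real.iSup_nonneg (fun a => v.nonneg _)
  have hχ : ∀ j : Fin R, 0 ≤ nv v (T 0) * W ((l * k j) • Zz g) :=
    fun j => mul_nonneg hnv (hWX.pos _).le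
  constructor
  · intro hv
    have h3 := (dbw K v (Fin R) (IM l e T r k) (fun i => 2 ^ g * W (lft (r i).2))
      (fun j => nv v (T 0) * W ((l * k j) • Zz g))
      (fun i => by have := hWX.pos (lft (r i).2); positivity) hχ
      (fun i j => by
        refine ((hm i j).1 hv).trans (le_of_eq ?_)
        ring)).1
    rw [Fintype.card_fin, Finset.prod_mul_distrib, Finset.prod_const, Finset.card_univ,
      Fintype.card_fin, ← pow_mul] at h3
    refine h3.trans (le_of_eq ?_)
    ring
  · intro hna
    have hv0 : 0 < v 2 := v.pos h2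
    have hvg : 0 < v 2 ^ g := pow_pos hv0 _
    have h3 := (dbw K v (Fin R) (IM l e T r k) (fun i => W (lft (r i).2) / v 2 ^ g)
      (fun j => nv v (T 0) * W ((l * k j) • Zz g))
      (fun i => div_nonneg (hWX.pos _).le hvg.le) hχ
      (fun i j => by
        have h4 := (hm i j).2 hna
        rw [div_mul_eq_mul_div, le_div_iff₀ hvg, mul_comm]
        exact h4)).2 hna
    rw [Finset.prod_div_distrib, Finset.prod_const, Finset.card_univ, Fintype.card_fin,
      ← pow_mul, div_mul_eq_mul_div, le_div_iff₀ (pow_pos hv0 _)] at h3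
    rw [mul_comm]
    exact h3

end Pool.Agent.SZG.H41
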