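import Pool.Agent.SZG.StmtsW

/-!
# Squad SZG, row PRG: maximum principle along the doubling orbit
-/

set_option autoImplicit false

namespace Pool.Agent.SZG.H41

theorem prg (orb : OrbStmt) : PrgStmt := by
  intro I _ E h C hE hC hper hpos h4 i
  by_contra hcon
  have hcon' : C * h 0 ^ 3 < h i ^ 3 := not_le.1 hcon
  have step : ∀ j : I, C * h 0 ^ 3 < h j ^ 3 → h j < h (2 • j) := by
    intro j hj
    have h1 : h j ^ 3 * h j < h j ^ 3 * h (2 • j) := by
      calc h j ^ 3 * h j = h j ^ 4 := by ring
        _ ≤ C * h (2 • j) * h 0 ^ 3 := h4 j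
        _ = C * h 0 ^ 3 * h (2 • j) := by ring
        _ < h j ^ 3 * h (2 • j) := mul_lt_mul_of_pos_right hj (hpos _)
    exact lt_of_mul_lt_mul_left h1 (by have := hpos j; positivity)
  have hs : ∀ n : ℕ, (2 ^ (n + 1)) • i = 2 • ((2 ^ n) • i) := by
    intro n
    rw [pow_succ', mul_smul]
  have main : ∀ n : ℕ, C * h 0 ^ 3 < h ((2 ^ n) • i) ^ 3 := by
    intro n
    induction n with
    | zero =>
      rw [pow_zero, one_smul]
      exact hcon'
    | succ n ih =>
      rw [hs]
      exact ih.trans (pow_lt_pow_left₀ (step _ ih) (hpos _).le (by norm_num))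
  have mono : StrictMono (fun n : ℕ => h ((2 ^ n) • i)) := by
    apply strictMono_nat_of_lt_succ
    intro n
    rw [hs]
    exact step _ (main n)
  obtain ⟨m, n, hmn, heq⟩ := orb I E h hE hper i
  have := mono hmn
  simp only at this
  rw [heq] at this
  exact lt_irrefl _ this

end Pool.Agent.SZG.H41
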